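import Mathlib
import Pool.Agent.U214.T6.Fam
import Pool.Agent.U409.SH.Ht
import Pool.Agent.U409.SH.Tor
import Pool.Agent.W29.RT.LOW4

/-!
# All moments of `2 ^ rank * #Ш[2]` over the rational fibres of elliptic surfaces

Adapted from `Pool/Agent/Results/MP_157626_nt/RationalFibres.lean` (helper106).
-/

set_option autoImplicit false

namespace Pool.Agent.U214.T4

open Finset Pool.Agent.W262.RK Pool.Agent.W307.RT Pool.Agent.U214.T6
open Pool.Agent.U409.SH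
open Pool.Agent.Y700 (VR)

/-- the form -/
def F {N : ℕ} (c : Fin N → Fin 3) (a : Fin 3 → ℤ) (μ : Fin N → ℕ) (α β : Fin N → ℤ) (k : Fin 3)
    (u v : ℚ) : ℚ :=
  a k * ∏ i ∈ univ.filter (fun i => c i = k), ((α i : ℚ) * u + (β i : ℚ) * v) ^ μ i

/-- the same form at integers -/
def FZ {N : ℕ} (c : Fin N → Fin 3) (a : Fin 3 → ℤ) (μ : Fin N → ℕ) (α β : Fin N → ℤ) (k : Fin 3)
    (u v : ℤ) : ℤ :=
  a k * ∏ i ∈ univ.filter (fun i => c i = k), (α i * u + β i * v) ^ μ i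

/-- the rational numbers of height at most `H` -/
noncomputable def Rats (H : ℕ) : Finset ℚ :=
  ((Icc (-(H : ℤ)) H) ×ˢ (Icc (1 : ℤ) H)).image (fun c : ℤ × ℤ => (c.1 : ℚ) / c.2)

/-- the classes -/
def cl {N : ℕ} (c : Fin N → Fin 3) (j : Fin N) : Fin 4 := (c j).castSucc

section
variable {N : ℕ} {c : Fin N → Fin 3} {a : Fin 3 → ℤ} {μ : Fin N → ℕ} {α β : Fin N → ℤ}

lemma FZ_cast (k : Fin 3) (u v : ℤ) : ((FZ c a μ α β k u v : ℤ) : ℚ) = F c a μ α β k u v := by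
  unfold FZ F
  push_cast
  rfl

lemma F_scale (k : Fin 3) (u v w : ℚ) :
    F c a μ α β k (w * u) (w * v) =
      w ^ (∑ i ∈ univ.filter (fun i => c i = k), μ i) * F c a μ α β k u v := by
  unfold F
  have : ∀ i, ((α i : ℚ) * (w * u) + (β i : ℚ) * (w * v)) ^ μ i =
      w ^ μ i * ((α i : ℚ) * u + (β i : ℚ) * v) ^ μ i := by
    intro i
    rw [← mul_pow]
    congr 1
    ring
  rw [prod_congr rfl (fun i _ => this i), prod_mul_distrib, prod_pow_eq_pow_sum]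
  ring

/-- a good shift -/
lemma exists_shift (h0 : ∀ i, α i ≠ 0 ∨ β i ≠ 0) : ∃ q : ℕ, ∀ i, α i + q * β i ≠ 0 := by
  refine ⟨1 + ∑ i, (α i).natAbs, fun i h => ?_⟩
  have h1 : (α i).natAbs ≤ ∑ i, (α i).natAbs :=
    single_le_sum (f := fun i => (α i).natAbs) (fun _ _ => Nat.zero_le _) (mem_univ i)
  set S := ∑ i, (α i).natAbs with hS
  by_cases hb : β i = 0
  · rw [hb] at h
    simp only [mul_zero, add_zero] at h
    rcases h0 i with h2 | h2
    · exact h2 h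
    · exact h2 hb
  · have h2 : α i = -(((1 + S : ℕ) : ℤ) * β i) := by linarith
    have h3 : (α i).natAbs = (1 + S) * (β i).natAbs := by
      rw [h2, Int.natAbs_neg, Int.natAbs_mul, Int.natAbs_natCast]
    have h4 : 1 ≤ (β i).natAbs := Int.natAbs_pos.2 hb
    have h5 : (1 + S) * 1 ≤ (1 + S) * (β i).natAbs := Nat.mul_le_mul_left _ h4
    omega

lemma fc_cl (k : Fin 3) : fc (cl c) k = univ.filter (fun i => c i = k) := by
  unfold fc cl
  ext i
  simp

/-- the average over the box of coprime pairs -/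
theorem box {r : ℕ} (hr : 1 ≤ r) {e : ℝ} {d : ℕ}
    (ha : ∀ k, a k ≠ 0) (hμ : ∀ i, 1 ≤ μ i)
    (hd : ∀ k, ∑ i ∈ univ.filter (fun i => c i = k), μ i = 2 * d)
    (hα : ∀ i j, i ≠ j → α i * β j ≠ α j * β i) (h0 : ∀ i, α i ≠ 0 ∨ β i ≠ 0)
    (hs : ∀ i, Odd (μ i) ∨ IsSquare (kapM (cl c) a μ α β i))
    (hF : ∀ u v : ℚ, F c a μ α β 0 u v - F c a μ α β 1 u v = F c a μ α β 2 u v)
    (hE : ExJ r (cl c) e) :
    ∃ C : ℝ, 0 ≤ C ∧ ∀ T : ℕ, 1 ≤ T → ∑ t ∈ (Box T).filter (fun t : ℤ × ℤ =>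
      IsCoprime t.1 t.2 ∧ FZ c a μ α β 0 t.1 t.2 ≠ 0 ∧ FZ c a μ α β 1 t.1 t.2 ≠ 0 ∧
        FZ c a μ α β 0 t.1 t.2 ≠ FZ c a μ α β 1 t.1 t.2),
      (qq (FZ c a μ α β 0 t.1 t.2) (FZ c a μ α β 1 t.1 t.2) : ℝ) ^ r ≤
        C * ((T : ℝ) ^ 2 * (1 + Real.log T) ^ e) := by
  classical
  obtain ⟨q, hq⟩ := exists_shift h0
  obtain ⟨A, hA⟩ : ∃ A : Fin N → ℤ, A = fun j => α j + q * β j := ⟨_, rfl⟩
  have hFM : ∀ (k : Fin 3) (u v : ℤ), FM (cl c) a μ (fv A β u v) k =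
      FZ c a μ α β k u (v + q * u) := by
    intro k u v
    unfold FM FZ
    rw [fc_cl]
    congr 1
    refine prod_congr rfl fun i _ => ?_
    simp only [fv, hA]
    congr 1
    ring
  have hRes' : ∀ j l, Res A β j l = Res α β j l := by
    intro j l
    unfold Res
    rw [hA]
    ring
  have hRes : ∀ j l : Fin N, j ≠ l → Res A β j l ≠ 0 := by
    intro j l hne h
    rw [hRes'] at h
    unfold Res at h
    exact hα j l hne (by linarith)
  have hkap : ∀ j, kapM (cl c) a μ A β j = kapM (cl c) a μ α β j := by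
    intro j
    unfold kapM
    simp only [hRes']
  have hcs : ∀ (k : Fin 3), k.castSucc ≠ (3 : Fin 4) := by decide
  have hZ : ∀ u v : ℤ, FZ c a μ α β 0 u v - FZ c a μ α β 1 u v = FZ c a μ α β 2 u v := by
    intro u v
    have h := hF u v
    rw [← FZ_cast, ← FZ_cast, ← FZ_cast] at h
    exact_mod_cast h
  have hmain := famR hr (cl c) a μ A β (fun j => hcs _) ha hμ
    (fun j => by rw [hA]; exact hq j) hRes
    (fun k => by
      rw [fc_cl, hd k]
      exact even_two_mul d)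
    (fun j => by rw [hkap]; exact hs j)
    (fun u v => by rw [hFM, hFM, hFM]; exact hZ _ _) hE
    q (fun u v => -(FZ c a μ α β 0 u v)) (fun u v => -(FZ c a μ α β 1 u v))
    (fun u v => by rw [hFM]; ring) (fun u v => by rw [hFM]; ring)
  obtain ⟨C, hC0, hC⟩ := hmain
  refine ⟨C, hC0, fun T hT => ?_⟩
  have hnn : ∀ x y : ℤ, (qq (- -x) (- -y) : ℝ) ^ r = (qq x y : ℝ) ^ r := by
    intro x y
    rw [neg_neg, neg_neg]
  have h := hC T hT
  rw [sum_congr rfl (fun t _ => hnn _ _)] at h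
  refine le_trans (le_of_eq ?_) h
  apply sum_congr _ (fun _ _ => rfl)
  apply filter_congr
  intro t _
  simp only [ne_eq, neg_eq_zero, neg_inj]

lemma F_eq_zero (ha : ∀ k, a k ≠ 0) (h0 : ∀ i, α i ≠ 0 ∨ β i ≠ 0) {k : Fin 3} {t : ℚ}
    (h : F c a μ α β k t 1 = 0) : ∃ i, t = -(β i : ℚ) / α i := by
  unfold F at h
  rcases mul_eq_zero.1 h with h | h
  · exact absurd h (by exact_mod_cast ha k)
  · rw [prod_eq_zero_iff] at h
    obtain ⟨i, _, hi⟩ := h
    have h1 : (α i : ℚ) * t + (β i : ℚ) * 1 = 0 := by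
      by_contra hne
      exact pow_ne_zero _ hne hi
    refine ⟨i, ?_⟩
    by_cases hα : α i = 0
    · exfalso
      rcases h0 i with h3 | h3
      · exact h3 hα
      · apply h3
        rw [hα] at h1
        simp only [Int.cast_zero, zero_mul, mul_one, zero_add] at h1
        exact_mod_cast h1
    · have h3 : (α i : ℚ) ≠ 0 := by exact_mod_cast hα
      rw [eq_div_iff h3]
      linarith

end

/-- the curve over `ℚ` -/
def EQ (x y : ℚ) : WeierstrassCurve ℚ := ⟨0, -(x + y), 0, x * y, 0⟩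

lemma Qn_scale {x y w : ℚ} {X Y : ℤ} (hw : w ≠ 0) (hX : (X : ℚ) = w ^ 2 * x)
    (hY : (Y : ℚ) = w ^ 2 * y) (hx : X ≠ 0) (hy : Y ≠ 0) (hxy : X ≠ Y) :
    Fin2 (EQ x y) ∧ Qn (EQ x y) = qq X Y := by
  have hv : VR (EQ x y) (Pool.Agent.W262.SH.E X Y) w⁻¹ 0 0 0 := by
    unfold EQ Pool.Agent.W262.SH.E
    refine ⟨inv_ne_zero hw, ?_, ?_, ?_, ?_, ?_⟩
    · simp
    · simp only
      rw [hX, hY]
      field_simp
      ring
    · simp
    · simp only
      rw [hX, hY]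
      field_simp
      ring
    · simp
  have hD : (Pool.Agent.W262.SH.E X Y).Δ ≠ 0 := by
    have h := delta_E (M := -X) (N := -Y) (neg_ne_zero.2 hx) (neg_ne_zero.2 hy)
      (fun h => hxy (neg_injective h))
    rwa [neg_neg, neg_neg] at h
  refine ⟨fin_VR hv hD (fin2 X Y hx hy hxy), ?_⟩
  rw [qq_eq]
  exact (Qn_VR hv hD).symm

lemma mem_Rats {H : ℕ} {t : ℚ} (ht : t ∈ Rats H) : t.num.natAbs ≤ H ∧ t.den ≤ H := by
  unfold Rats at ht
  rw [mem_image] at ht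
  obtain ⟨c, hc, rfl⟩ := ht
  rw [mem_product, mem_Icc, mem_Icc] at hc
  obtain ⟨⟨h1, h2⟩, h3, h4⟩ := hc
  have hc2 : c.2 ≠ 0 := by omega
  constructor
  · by_cases h0 : c.1 = 0
    · rw [h0]
      simp
    · have h5 : ((c.1 : ℚ) / c.2).num ∣ c.1 := by
        rw [← Rat.divInt_eq_div]
        exact Rat.num_dvd c.1 hc2
      have h6 := Int.natAbs_le_of_dvd_ne_zero h5 h0
      omega
  · have h5 : ((((c.1 : ℚ) / c.2).den : ℕ) : ℤ) ∣ c.2 := by
      rw [← Rat.divInt_eq_div]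
      exact Rat.den_dvd c.1 c.2
    have h6 := Int.natAbs_le_of_dvd_ne_zero h5 hc2
    omega

lemma card_Rats (H : ℕ) : H ^ 2 ≤ 12 * (Rats H).card := by
  classical
  refine (Pool.Agent.W29.RT.totient_sum H).trans (Nat.mul_le_mul_left _ ?_)
  have h1 : ∑ q ∈ Icc 1 H, q.totient =
      ((Icc 1 H).sigma (fun q => (range q).filter (fun a => q.Coprime a))).card := by
    rw [card_sigma]
    exact sum_congr rfl fun q _ => Nat.totient_eq_card_coprime q
  rw [h1]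
  apply card_le_card_of_injOn (fun x => ((x.2 : ℤ) : ℚ) / ((x.1 : ℤ) : ℚ))
  · intro x hx
    rw [mem_coe, mem_sigma, mem_Icc, mem_filter, mem_range] at hx
    rw [mem_coe]
    unfold Rats
    rw [mem_image]
    refine ⟨((x.2 : ℤ), (x.1 : ℤ)), ?_, rfl⟩
    rw [mem_product, mem_Icc, mem_Icc]
    simp only
    omega
  · intro x hx y hy hxy
    rw [mem_coe, mem_sigma, mem_Icc, mem_filter, mem_range] at hx hy
    simp only at hxy
    have hx1 : (0 : ℤ) < (x.1 : ℤ) := by omega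
    have hy1 : (0 : ℤ) < (y.1 : ℤ) := by omega
    have hxc : Nat.Coprime (x.2 : ℤ).natAbs (x.1 : ℤ).natAbs := by
      simpa using hx.2.2.symm
    have hyc : Nat.Coprime (y.2 : ℤ).natAbs (y.1 : ℤ).natAbs := by
      simpa using hy.2.2.symm
    have e1 := Rat.num_div_eq_of_coprime hx1 hxc
    have e2 := Rat.num_div_eq_of_coprime hy1 hyc
    have e3 := Rat.den_div_eq_of_coprime hx1 hxc
    have e4 := Rat.den_div_eq_of_coprime hy1 hyc
    rw [hxy] at e1 e3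
    have h2 : (x.2 : ℤ) = y.2 := e1.symm.trans e2
    have h3 : (x.1 : ℤ) = y.1 := e3.symm.trans e4
    have h2' : x.2 = y.2 := by exact_mod_cast h2
    have h3' : x.1 = y.1 := by exact_mod_cast h3
    cases x
    cases y
    simp only at h2' h3'
    subst h2' h3'
    rfl

section
variable {N : ℕ} {c : Fin N → Fin 3} {a : Fin 3 → ℤ} {μ : Fin N → ℕ} {α β : Fin N → ℤ}

lemma vals {d : ℕ} (hd : ∀ k, ∑ i ∈ univ.filter (fun i => c i = k), μ i = 2 * d) (t : ℚ)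
    (k : Fin 3) : ((FZ c a μ α β k t.num t.den : ℤ) : ℚ) =
      ((t.den : ℚ) ^ d) ^ 2 * F c a μ α β k t 1 := by
  rw [FZ_cast, ← pow_mul, mul_comm d 2, ← hd k, ← F_scale]
  congr 1
  · rw [mul_comm]
    exact (Rat.mul_den_eq_num t).symm
  · simp

/-- the curve at `t` and the integral model -/
lemma at_t {d : ℕ} (hd : ∀ k, ∑ i ∈ univ.filter (fun i => c i = k), μ i = 2 * d)
    (hF : ∀ u v : ℚ, F c a μ α β 0 u v - F c a μ α β 1 u v = F c a μ α β 2 u v) (t : ℚ)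
    (ht : ∀ k, F c a μ α β k t 1 ≠ 0) :
    (FZ c a μ α β 0 t.num t.den ≠ 0 ∧ FZ c a μ α β 1 t.num t.den ≠ 0 ∧
      FZ c a μ α β 0 t.num t.den ≠ FZ c a μ α β 1 t.num t.den) ∧
    Fin2 (EQ (F c a μ α β 0 t 1) (F c a μ α β 1 t 1)) ∧
    Qn (EQ (F c a μ α β 0 t 1) (F c a μ α β 1 t 1)) =
      qq (FZ c a μ α β 0 t.num t.den) (FZ c a μ α β 1 t.num t.den) := by
  have hden : (t.den : ℚ) ≠ 0 := by exact_mod_cast t.den_nz
  have hw : (t.den : ℚ) ^ d ≠ 0 := pow_ne_zero _ hden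
  have hk0 : ∀ k, FZ c a μ α β k t.num t.den ≠ 0 := by
    intro k h
    have h2 := vals (a := a) (α := α) (β := β) hd t k
    rw [h] at h2
    exact mul_ne_zero (pow_ne_zero _ hw) (ht k) (by exact_mod_cast h2.symm)
  have hne : FZ c a μ α β 0 t.num t.den ≠ FZ c a μ α β 1 t.num t.den := by
    intro h
    apply hk0 2
    have h2 := hF ((t.num : ℤ) : ℚ) (((t.den : ℕ) : ℤ) : ℚ)
    rw [← FZ_cast, ← FZ_cast, ← FZ_cast, h, sub_self] at h2
    exact_mod_cast h2.symm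
  exact ⟨⟨hk0 0, hk0 1, hne⟩, Qn_scale hw (vals hd t 0) (vals hd t 1) (hk0 0) (hk0 1) hne⟩

/-- **the moments over the rational fibres** -/
theorem main {r : ℕ} (hr : 1 ≤ r) {e : ℝ} {d : ℕ}
    (ha : ∀ k, a k ≠ 0) (hμ : ∀ i, 1 ≤ μ i)
    (hd : ∀ k, ∑ i ∈ univ.filter (fun i => c i = k), μ i = 2 * d)
    (hα : ∀ i j, i ≠ j → α i * β j ≠ α j * β i) (h0 : ∀ i, α i ≠ 0 ∨ β i ≠ 0)
    (hs : ∀ i, Odd (μ i) ∨ IsSquare (kapM (cl c) a μ α β i))
    (hF : ∀ u v : ℚ, F c a μ α β 0 u v - F c a μ α β 1 u v = F c a μ α β 2 u v)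
    (hE : ExJ r (cl c) e) :
    ∃ C : ℝ, ∀ H : ℕ, 1 ≤ H →
      ∑ t ∈ (Rats H).filter (fun t => ∀ k, F c a μ α β k t 1 ≠ 0),
        (Qn (EQ (F c a μ α β 0 t 1) (F c a μ α β 1 t 1)) : ℝ) ^ r ≤
      C * (1 + Real.log H) ^ e * ((Rats H).filter (fun t => ∀ k, F c a μ α β k t 1 ≠ 0)).card := by
  classical
  obtain ⟨C1, hC10, hC1⟩ := box hr ha hμ hd hα h0 hs hF hE
  have hup : ∀ H : ℕ, 1 ≤ H → ∑ t ∈ (Rats H).filter (fun t => ∀ k, F c a μ α β k t 1 ≠ 0),
        (Qn (EQ (F c a μ α β 0 t 1) (F c a μ α β 1 t 1)) : ℝ) ^ r ≤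
      C1 * ((H : ℝ) ^ 2 * (1 + Real.log H) ^ e) := by
    intro H hH
    refine le_trans ?_ (hC1 H hH)
    rw [sum_congr rfl (fun t ht => by rw [(at_t hd hF t (mem_filter.1 ht).2).2.2])]
    have hinj : Set.InjOn (fun t : ℚ => (t.num, (t.den : ℤ)))
        ((Rats H).filter (fun t => ∀ k, F c a μ α β k t 1 ≠ 0) : Finset ℚ) := by
      intro t _ t' _ h
      simp only [Prod.mk.injEq] at h
      exact Rat.ext h.1 (by exact_mod_cast h.2)
    rw [← sum_image (f := fun z : ℤ × ℤ =>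
      (qq (FZ c a μ α β 0 z.1 z.2) (FZ c a μ α β 1 z.1 z.2) : ℝ) ^ r) hinj]
    apply sum_le_sum_of_subset_of_nonneg
    · intro z hz
      rw [mem_image] at hz
      obtain ⟨t, ht, rfl⟩ := hz
      rw [mem_filter] at ht
      obtain ⟨ht1, ht2⟩ := ht
      have h1 := mem_Rats ht1
      obtain ⟨⟨b0, b1, b2⟩, _⟩ := at_t hd hF t ht2
      rw [mem_filter]
      refine ⟨Pool.Agent.W307.RT.mem_Box.2 ⟨h1.1, by simpa using h1.2⟩, ?_, b0, b1, b2⟩
      rw [Int.isCoprime_iff_gcd_eq_one]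
      simpa [Int.gcd] using t.reduced
    · intro _ _ _
      positivity
  -- the number of the fibres
  have hlow : ∀ H : ℕ, (Rats H).card ≤
      ((Rats H).filter (fun t => ∀ k, F c a μ α β k t 1 ≠ 0)).card + N := by
    intro H
    rw [← card_filter_add_card_filter_not (s := Rats H) (fun t => ∀ k, F c a μ α β k t 1 ≠ 0)]
    apply Nat.add_le_add_left
    have h1 : (Rats H).filter (fun t => ¬ ∀ k, F c a μ α β k t 1 ≠ 0) ⊆
        (univ : Finset (Fin N)).image (fun j => -(β j : ℚ) / α j) := by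
      intro t ht
      rw [mem_filter] at ht
      have h2 := ht.2
      push Not at h2
      obtain ⟨k, hk⟩ := h2
      obtain ⟨i, hi⟩ := F_eq_zero ha h0 hk
      rw [mem_image]
      exact ⟨i, mem_univ _, hi.symm⟩
    refine (card_le_card h1).trans (card_image_le.trans ?_)
    simp
  refine ⟨C1 * (12 + 12 * N), fun H hH => ?_⟩
  obtain ⟨S, hS⟩ : ∃ S, S = (Rats H).filter (fun t => ∀ k, F c a μ α β k t 1 ≠ 0) := ⟨_, rfl⟩
  have hLH : 0 ≤ Real.log (H : ℝ) := Real.log_natCast_nonneg H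
  have hL0 : 0 ≤ (1 + Real.log (H : ℝ)) ^ e := Real.rpow_nonneg (by linarith) _
  rcases Nat.eq_zero_or_pos S.card with hz | hp
  · rw [card_eq_zero] at hz
    rw [← hS, hz]
    simp
  · refine (hup H hH).trans ?_
    have h1 := card_Rats H
    have h2 := hlow H
    rw [← hS] at h2 ⊢
    have h3 : H ^ 2 ≤ 12 * S.card + 12 * N := by omega
    have h4 : ((H : ℝ)) ^ 2 ≤ 12 * (S.card : ℝ) + 12 * N := by exact_mod_cast h3
    have h5 : (1 : ℝ) ≤ S.card := by exact_mod_cast hp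
    have h6 : (N : ℝ) ≤ N * S.card := le_mul_of_one_le_right (Nat.cast_nonneg N) h5
    have h7 : (H : ℝ) ^ 2 ≤ (12 + 12 * N) * S.card := by nlinarith
    calc C1 * ((H : ℝ) ^ 2 * (1 + Real.log H) ^ e)
        ≤ C1 * (((12 + 12 * N) * S.card) * (1 + Real.log H) ^ e) :=
          mul_le_mul_of_nonneg_left (mul_le_mul_of_nonneg_right h7 hL0) hC10
      _ = _ := by ring

end

end Pool.Agent.U214.T4
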